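import Pool.Agent.H87.EBK.Stmts2

/-!
Board ebs, row TRI: third edges and their hypotenuses.
-/

set_option autoImplicit false

namespace Pool.EBK

theorem tri_aux (x c : ℚ) (hc : 0 < c) (h : IsSquare (x ^ 2 + c ^ 2)) :
    ∃ u : ℚ, 0 < u ∧ u ^ 2 = x ^ 2 + c ^ 2 := by
  obtain ⟨t, ht⟩ := h
  have hp : 0 < x ^ 2 + c ^ 2 := by positivity
  have ht0 : t ≠ 0 := by
    rintro rfl
    rw [mul_zero] at ht
    exact hp.ne' ht
  refine ⟨|t|, abs_pos.mpr ht0, ?_⟩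
  rw [sq_abs, ht, sq]

theorem tri : TRI := by
  intro a b c _ _
  constructor
  · rintro ⟨hc, h1, h2⟩
    obtain ⟨u, hu, eu⟩ := tri_aux a c hc h1
    obtain ⟨w, hw, ew⟩ := tri_aux b c hc h2
    exact ⟨u, w, hc, hu, hw, eu, ew⟩
  · rintro ⟨u, w, hc, _, _, eu, ew⟩
    exact ⟨hc, ⟨u, by rw [← eu, sq]⟩, ⟨w, by rw [← ew, sq]⟩⟩

end Pool.EBK
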